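import Pool.Agent.H64.GG.TA

/-!
# Row KER: the relations of the radicals
-/

set_option autoImplicit false

namespace Pool.Agent.H59.GG

open NumberField Height Finset Polynomial Pool.Agent.H24.RD Pool.Agent.H23.RDD Pool.Agent.H29.RQ
  Pool.Agent.H29.SX Pool.Agent.H29.LG Pool.Agent.H64.GG

section
variable {K M : Type} [Field K] [Field M] [Algebra K M] {w : AbsoluteValue M ℝ} {σ : Type}

theorem itg_zero : Itg w (0 : MvPolynomial σ K) := by
  intro n
  rw [MvPolynomial.coeff_zero, map_zero, map_zero]
  exact zero_le_one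

theorem itg_add (hw : IsNonarchimedean w) {F G : MvPolynomial σ K} (hF : Itg w F)
    (hG : Itg w G) : Itg w (F + G) := by
  intro n
  rw [MvPolynomial.coeff_add, map_add]
  exact (hw _ _).trans (max_le (hF n) (hG n))

theorem itg_monomial (m : σ →₀ ℕ) {x : K} (hx : w (algebraMap K M x) ≤ 1) :
    Itg w (MvPolynomial.monomial m x) := by
  classical
  intro n
  rw [MvPolynomial.coeff_monomial]
  split_ifs
  · exact hx
  · rw [map_zero, map_zero]; exact zero_le_one

/-- reduction modulo the relations -/
def RedK {r : ℕ} (w : AbsoluteValue M ℝ) (N : Fin r → ℕ) (c : Fin r → K)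
    (G : MvPolynomial (Fin r) K) : Prop :=
  ∃ (H : Fin r → MvPolynomial (Fin r) K) (G0 : MvPolynomial (Fin r) K), (∀ i, Itg w (H i)) ∧
    Itg w G0 ∧ (∀ n ∈ G0.support, ∀ i, n i < N i) ∧
    G = ∑ i, H i * (MvPolynomial.X i ^ N i - MvPolynomial.C (c i)) + G0

theorem redK_zero {r : ℕ} (N : Fin r → ℕ) (c : Fin r → K) :
    RedK w N c (0 : MvPolynomial (Fin r) K) := by
  refine ⟨fun _ => 0, 0, fun _ => itg_zero, itg_zero, ?_, ?_⟩
  · intro n hn; simp at hn
  · simp

theorem redK_add (hw : IsNonarchimedean w) {r : ℕ} {N : Fin r → ℕ} {c : Fin r → K}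
    {F G : MvPolynomial (Fin r) K} (hF : RedK w N c F) (hG : RedK w N c G) :
    RedK w N c (F + G) := by
  obtain ⟨H, F0, h1, h2, h3, h4⟩ := hF
  obtain ⟨H', G0, h1', h2', h3', h4'⟩ := hG
  refine ⟨fun i => H i + H' i, F0 + G0, fun i => itg_add hw (h1 i) (h1' i), itg_add hw h2 h2',
    ?_, ?_⟩
  · intro n hn i
    rcases Finset.mem_union.1 (MvPolynomial.support_add hn) with h | h
    · exact h3 n h i
    · exact h3' n h i
  · rw [h4, h4']
    simp only [add_mul, Finset.sum_add_distrib]
    ring

theorem redK_monomial (hw : IsNonarchimedean w) {r : ℕ} {N : Fin r → ℕ} {c : Fin r → K}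
    (hN : ∀ i, 0 < N i) (hc : ∀ i, w (algebraMap K M (c i)) ≤ 1) :
    ∀ (d : ℕ) (n : Fin r →₀ ℕ), (∑ i, n i) = d → ∀ x : K, w (algebraMap K M x) ≤ 1 →
      RedK w N c (MvPolynomial.monomial n x) := by
  classical
  intro d
  induction d using Nat.strong_induction_on with
  | _ d ih =>
    intro n hn x hx
    by_cases hall : ∀ i, n i < N i
    · refine ⟨fun _ => 0, MvPolynomial.monomial n x, fun _ => itg_zero, itg_monomial n hx, ?_, ?_⟩
      · intro m hm i
        have h1 := MvPolynomial.support_monomial_subset hm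
        rw [Finset.mem_singleton] at h1
        rw [h1]; exact hall i
      · simp
    push Not at hall
    obtain ⟨i, hi⟩ := hall
    obtain ⟨m, hm⟩ : ∃ m, n = m + Finsupp.single i (N i) :=
      ⟨n - Finsupp.single i (N i), (tsub_add_cancel_of_le (by
        rw [Finsupp.single_le_iff]; exact hi)).symm⟩
    have hsum : (∑ j, m j) + N i = d := by
      rw [← hn, hm]
      simp only [Finsupp.add_apply, Finset.sum_add_distrib]
      congr 1
      rw [Finset.sum_eq_single i]
      · simp
      · intro j _ hj
        rw [Finsupp.single_apply, if_neg (fun h => hj h.symm)]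
      · intro h; exact absurd (Finset.mem_univ _) h
    have hlt : (∑ j, m j) < d := by have := hN i; omega
    have hx' : w (algebraMap K M (x * c i)) ≤ 1 := by
      rw [map_mul, map_mul]
      exact mul_le_one₀ hx (w.nonneg _) (hc i)
    obtain ⟨H, G0, h1, h2, h3, h4⟩ := ih _ hlt m rfl (x * c i) hx'
    refine ⟨fun j => H j + if j = i then MvPolynomial.monomial m x else 0, G0, ?_, h2, h3, ?_⟩
    · intro j
      refine itg_add hw (h1 j) ?_
      split_ifs
      · exact itg_monomial m hx
      · exact itg_zero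
    · have e1 : MvPolynomial.monomial n x =
          MvPolynomial.monomial m x * (MvPolynomial.X i ^ N i - MvPolynomial.C (c i)) +
            MvPolynomial.monomial m (x * c i) := by
        have hC : MvPolynomial.monomial m x * MvPolynomial.C (c i) =
            MvPolynomial.monomial m (x * c i) := by
          rw [mul_comm, MvPolynomial.C_mul_monomial, mul_comm]
        rw [hm, mul_sub, MvPolynomial.X_pow_eq_monomial, MvPolynomial.monomial_mul, mul_one, hC]
        ring
      have e2 : ∑ j, (H j + if j = i then MvPolynomial.monomial m x else 0) *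
          (MvPolynomial.X j ^ N j - MvPolynomial.C (c j)) =
          (∑ j, H j * (MvPolynomial.X j ^ N j - MvPolynomial.C (c j))) +
            MvPolynomial.monomial m x * (MvPolynomial.X i ^ N i - MvPolynomial.C (c i)) := by
        simp only [add_mul, Finset.sum_add_distrib, ite_mul, zero_mul, Finset.sum_ite_eq',
          Finset.mem_univ, if_true]
      rw [e1, e2, h4]
      ring

theorem redK_all (hw : IsNonarchimedean w) {r : ℕ} {N : Fin r → ℕ} {c : Fin r → K}
    (hN : ∀ i, 0 < N i) (hc : ∀ i, w (algebraMap K M (c i)) ≤ 1) (G : MvPolynomial (Fin r) K)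
    (hG : Itg w G) : RedK w N c G := by
  classical
  have key : ∀ s : Finset (Fin r →₀ ℕ),
      RedK w N c (∑ n ∈ s, MvPolynomial.monomial n (G.coeff n)) := by
    intro s
    induction s using Finset.induction_on with
    | empty => rw [Finset.sum_empty]; exact redK_zero N c
    | insert a s ha ih =>
      rw [Finset.sum_insert ha]
      exact redK_add hw (redK_monomial hw hN hc _ a rfl _ (hG a)) ih
  have := key G.support
  rwa [MvPolynomial.support_sum_monomial_coeff] at this

end

theorem pf_KER : T_KER := by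
  classical
  intro K M _ _ _ w hw r N c θ hN hθ hθ1 hInd G hG hG0
  have hc : ∀ i, w (algebraMap K M (c i)) ≤ 1 := by
    intro i
    rw [← hθ i, map_pow]
    exact pow_le_one₀ (w.nonneg _) (hθ1 i)
  obtain ⟨H, G0, h1, h2, h3, h4⟩ := redK_all hw hN hc G hG
  refine ⟨H, h1, ?_⟩
  have hev : MvPolynomial.aeval θ G0 = 0 := by
    rw [h4, map_add, map_sum] at hG0
    rw [Finset.sum_eq_zero, zero_add] at hG0
    · exact hG0
    · intro i _
      rw [map_mul, map_sub, map_pow, MvPolynomial.aeval_X, MvPolynomial.algHom_C, hθ i, sub_self,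
        mul_zero]
  let e : ((i : Fin r) → Fin (N i)) → (Fin r →₀ ℕ) := fun j =>
    Finsupp.equivFunOnFinite.symm (fun i => (j i : ℕ))
  have he : Function.Injective e := by
    intro j j' hjj
    funext i
    have := DFunLike.congr_fun hjj i
    exact Fin.ext this
  have hsub : G0.support ⊆ Finset.univ.image e := by
    intro n hn
    rw [Finset.mem_image]
    refine ⟨fun i => ⟨n i, h3 n hn i⟩, Finset.mem_univ _, ?_⟩
    ext i; rfl
  have hsum : ∑ j : (i : Fin r) → Fin (N i), G0.coeff (e j) • ∏ i, θ i ^ (j i : ℕ) = 0 := by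
    rw [MvPolynomial.aeval_def, MvPolynomial.eval₂_eq',
      Finset.sum_subset hsub (fun n _ hn => by
        rw [MvPolynomial.notMem_support_iff.1 hn, map_zero, zero_mul]),
      Finset.sum_image (fun _ _ _ _ h => he h)] at hev
    rw [← hev]
    refine Finset.sum_congr rfl fun j _ => ?_
    rw [Algebra.smul_def]
    rfl
  have hco := Fintype.linearIndependent_iff.1 hInd (fun j => G0.coeff (e j)) hsum
  have hG00 : G0 = 0 := by
    ext n
    rw [MvPolynomial.coeff_zero]
    by_contra hne
    have hn : n ∈ G0.support := MvPolynomial.mem_support_iff.2 hne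
    obtain ⟨j, _, hj⟩ := Finset.mem_image.1 (hsub hn)
    exact hne (by rw [← hj]; exact hco j)
  rw [h4, hG00, add_zero]

end Pool.Agent.H59.GG
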