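import Pool.Agent.H64.GG.TC

/-!
# Row LVN: numbers which are not reduced
-/

set_option autoImplicit false

namespace Pool.Agent.H59.GG

open NumberField Height Finset Polynomial Pool.Agent.H24.RD Pool.Agent.H23.RDD Pool.Agent.H29.RQ
  Pool.Agent.H29.SX Pool.Agent.H29.LG Pool.Agent.H64.GG

theorem pf_LVN (hREDP : T_REDP) (hLVR : T_LVR) (hHB : Pool.Agent.H24.RD.T_HB) : T_LVN := by
  intro r a hMI
  obtain ⟨c, C, hc, hmain⟩ := hLVR r a hMI
  refine ⟨c, C, hc, ?_⟩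
  intro N hGL θ hθ m d β g hm hd hcop hβ hCj hg hbg
  obtain ⟨e, d1, k, β1, he, hd1, hed, hβ1, hk, hpow, hCj1, hRed1⟩ :=
    hREDP (GF θ m) d β hβ hCj
  have hOm : Algebra.IsAlgebraic ℚ Om := AlgebraicClosure.isAlgebraic ℚ
  obtain ⟨hh0, -, -, hhpow, -⟩ := hHB Om
  obtain ⟨hg0, n, hn, x, hgx⟩ := hg
  have hβg0 : β * g ≠ 0 := mul_ne_zero hβ hg0
  have hα1 : β1 * g ^ e ≠ 0 := mul_ne_zero hβ1 (pow_ne_zero e hg0)
  have hpw : (β1 * g ^ e) ^ k = ((β * g) ^ e) ^ k := by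
    rw [mul_pow, hpow, mul_pow, mul_pow]
  have hheight : absLogHeight₁ (β1 * g ^ e) = e * absLogHeight₁ (β * g) := by
    have h1 := hhpow (β1 * g ^ e) k
    have h2 := hhpow ((β * g) ^ e) k
    rw [hpw, h2, hhpow (β * g) e] at h1
    have hk' : (k : ℝ) ≠ 0 := by exact_mod_cast hk.ne'
    exact (mul_left_cancel₀ hk' h1).symm
  have hge : g ^ e ∈ Dv ℚ Om a := by
    refine ⟨pow_ne_zero e hg0, n, hn, fun i => (e : ℤ) * x i, ?_⟩
    rw [← pow_mul, mul_comm, pow_mul, hgx, ← Finset.prod_pow]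
    refine Finset.prod_congr rfl fun i _ => ?_
    show ((algebraMap ℚ Om) (a i) ^ x i) ^ e = (algebraMap ℚ Om) (a i) ^ ((e : ℤ) * x i)
    rw [mul_comm (e : ℤ), zpow_mul, zpow_natCast]
  have hnot : β1 * g ^ e ∉ Dv ℚ Om a := by
    rintro ⟨-, l, hl, y, hy⟩
    apply hbg
    refine ⟨hβg0, e * k * l, by positivity, fun i => (k : ℤ) * y i, ?_⟩
    have h1 : (β * g) ^ (e * k * l) = ((β1 * g ^ e) ^ l) ^ k := by
      rw [← pow_mul, mul_comm l k, pow_mul _ k l, hpw, ← pow_mul, ← pow_mul, ← mul_assoc]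
    rw [h1, hy, ← Finset.prod_pow]
    refine Finset.prod_congr rfl fun i _ => ?_
    show ((algebraMap ℚ Om) (a i) ^ y i) ^ k = (algebraMap ℚ Om) (a i) ^ ((k : ℤ) * y i)
    rw [mul_comm (k : ℤ), zpow_mul, zpow_natCast]
  have hRep : RepQ a θ m d1 (β1 * g ^ e) := ⟨β1, hβ1, hCj1, hRed1, g ^ e, hge, rfl⟩
  have hfin := hmain N hGL θ hθ m d1 (β1 * g ^ e) hm hd1 hcop hRep hnot
  rw [hheight] at hfin
  have hd1d : d1 ≤ d := by nlinarith
  have hd1r : (1 : ℝ) ≤ (d1 : ℝ) := by exact_mod_cast hd1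
  have hddr : (d1 : ℝ) ≤ (d : ℝ) := by exact_mod_cast hd1d
  have hlog0 : 0 ≤ Real.log (3 * d1) := Real.log_nonneg (by linarith)
  have hlog : Real.log (3 * d1) ≤ Real.log (3 * d) :=
    Real.log_le_log (by linarith) (by linarith)
  have hpowl : Real.log (3 * d1) ^ C ≤ Real.log (3 * d) ^ C := pow_le_pow_left₀ hlog0 hlog C
  have hedr : (e : ℝ) * d1 ≤ d := by exact_mod_cast hed
  have hh := hh0 (β * g)
  calc c ≤ e * absLogHeight₁ (β * g) * d1 * Real.log (3 * d1) ^ C := hfin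
    _ = absLogHeight₁ (β * g) * (e * d1) * Real.log (3 * d1) ^ C := by ring
    _ ≤ absLogHeight₁ (β * g) * d * Real.log (3 * d) ^ C := by
        apply mul_le_mul _ hpowl (pow_nonneg hlog0 C)
        · exact mul_nonneg hh (by linarith)
        · exact mul_le_mul_of_nonneg_left hedr hh

end Pool.Agent.H59.GG
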