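import Pool.Agent.H64.GG.TA

/-!
# Row MXE: an element which generates the wild ramification
-/

set_option autoImplicit false

namespace Pool.Agent.H59.GG

open NumberField Height Finset Polynomial Pool.Agent.H24.RD Pool.Agent.H23.RDD Pool.Agent.H29.RQ
  Pool.Agent.H29.SX Pool.Agent.H29.LG Pool.Agent.H64.GG

section
variable {M : Type} [Field M] {w : AbsoluteValue M ℝ}

theorem wx_eq_of_lt (hna : IsNonarchimedean w) {x y : M} (h : w (x - y) < w y) : w x = w y := by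
  have h1 : w x ≤ w y := by
    have := hna (x - y) y
    rw [sub_add_cancel] at this
    exact this.trans (max_le h.le le_rfl)
  have h2 : w y ≤ max (w x) (w (x - y)) := by
    have := hna x (-(x - y))
    rw [w.map_neg] at this
    have h3 : x + -(x - y) = y := by ring
    rwa [h3] at this
  rcases le_max_iff.1 h2 with h3 | h3
  · exact le_antisymm h1 h3
  · exact absurd h (not_lt.2 h3)

theorem wx_sum_le (hna : IsNonarchimedean w) {ι : Type} (s : Finset ι) (f : ι → M) {B : ℝ}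
    (hB : 0 ≤ B) (h : ∀ i ∈ s, w (f i) ≤ B) : w (∑ i ∈ s, f i) ≤ B := by
  classical
  induction s using Finset.induction_on with
  | empty => rw [Finset.sum_empty, map_zero]; exact hB
  | insert a s ha ih =>
    rw [Finset.sum_insert ha]
    exact (hna _ _).trans (max_le (h a (Finset.mem_insert_self a s))
      (ih fun i hi => h i (Finset.mem_insert_of_mem hi)))

theorem wx_nat (hna : IsNonarchimedean w) (n : ℕ) : w (n : M) ≤ 1 := by
  induction n with
  | zero => rw [Nat.cast_zero, map_zero]; exact zero_le_one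
  | succ n ih =>
    rw [Nat.cast_succ]
    exact (hna _ _).trans (max_le ih (by rw [map_one]))

theorem wx_geom (hna : IsNonarchimedean w) {x : M} (hx : w x ≤ 1) (n : ℕ) :
    w (∑ i ∈ Finset.range n, x ^ i) ≤ 1 :=
  wx_sum_le hna _ _ zero_le_one fun i _ => by
    rw [map_pow]; exact pow_le_one₀ (w.nonneg _) hx

theorem wx_pow_sub_one (hna : IsNonarchimedean w) {x : M} (hx : w (x - 1) < 1) (n : ℕ)
    (hn : w (n : M) = 1) : w (x ^ n - 1) = w (x - 1) := by
  have hx1 : w x = 1 := by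
    have := wx_eq_of_lt hna (x := x) (y := 1) (by rw [map_one]; exact hx)
    rw [this, map_one]
  have h1 : w (∑ i ∈ Finset.range n, x ^ i) = 1 := by
    have h2 : w (∑ i ∈ Finset.range n, x ^ i - (n : M)) ≤ w (x - 1) := by
      have h3 : ∑ i ∈ Finset.range n, x ^ i - (n : M) = ∑ i ∈ Finset.range n, (x ^ i - 1) := by
        rw [Finset.sum_sub_distrib]; simp
      rw [h3]
      refine wx_sum_le hna _ _ (w.nonneg _) fun i _ => ?_
      rw [← geom_sum_mul, map_mul]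
      calc w (∑ j ∈ Finset.range i, x ^ j) * w (x - 1) ≤ 1 * w (x - 1) :=
            mul_le_mul_of_nonneg_right (wx_geom hna hx1.le i) (w.nonneg _)
        _ = w (x - 1) := one_mul _
    have h4 := wx_eq_of_lt hna (x := ∑ i ∈ Finset.range n, x ^ i) (y := (n : M))
      (by rw [hn]; exact h2.trans_lt hx)
    rw [h4, hn]
  rw [← geom_sum_mul, map_mul, h1, one_mul]

theorem wx_rat [CharZero M] {p : ℕ} (hp : p.Prime)
    (hcop : ∀ m : ℕ, ¬ p ∣ m → w (m : M) = 1) {u : ℚ} (hu0 : u ≠ 0)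
    (hu : padicValRat p u = 0) : w (algebraMap ℚ M u) = 1 := by
  have hfact : Fact p.Prime := ⟨hp⟩
  have hnum0 : u.num.natAbs ≠ 0 := by
    rw [Int.natAbs_ne_zero]; exact Rat.num_ne_zero.2 hu0
  have hval : (padicValNat p u.num.natAbs : ℤ) = padicValNat p u.den := by
    unfold padicValRat padicValInt at hu
    omega
  have hden : ¬ p ∣ u.den := by
    intro h
    have h1 := one_le_padicValNat_of_dvd u.den_ne_zero h
    have h2 : 1 ≤ padicValNat p u.num.natAbs := by omega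
    have h3 : p ∣ u.num.natAbs := dvd_of_one_le_padicValNat h2
    have h4 := Nat.dvd_gcd h3 h
    rw [Nat.Coprime.gcd_eq_one u.reduced] at h4
    exact hp.one_lt.ne' (Nat.dvd_one.1 h4)
  have hnum : ¬ p ∣ u.num.natAbs := by
    intro h
    have h1 := one_le_padicValNat_of_dvd hnum0 h
    have h2 : 1 ≤ padicValNat p u.den := by omega
    exact hden (dvd_of_one_le_padicValNat h2)
  rw [eq_ratCast, Rat.cast_def, map_div₀, hcop u.den hden, div_one]
  rcases Int.natAbs_eq u.num with h | h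
  · rw [h, Int.cast_natCast]; exact hcop _ hnum
  · rw [h, Int.cast_neg, w.map_neg, Int.cast_natCast]; exact hcop _ hnum

theorem mxe_core [CharZero M] (hna : IsNonarchimedean w) {p : ℕ} (hp : p.Prime)
    (hwp0 : 0 < w (p : M)) (hwp : w (p : M) < 1) (hcop : ∀ m : ℕ, ¬ p ∣ m → w (m : M) = 1)
    (θ : M) (a : ℚ) (n1 k e : ℕ) (hk : 1 ≤ k) (hke : k ≤ e) (hn1 : ¬ p ∣ n1)
    (hθ : θ ^ (p ^ k * n1) = algebraMap ℚ M a) (ha0 : a ≠ 0) (ha : padicValRat p a = 0)
    (hwf : padicValRat p (a ^ (p - 1) - 1) = 1)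
    (hres : ∀ x : M, w x ≤ 1 → w (x ^ (p ^ e) - x) < 1) :
    w (θ - θ ^ (p ^ k * p ^ (e - k))) ^ (p ^ k) = w (p : M) := by
  have hfact : Fact p.Prime := ⟨hp⟩
  have hwa := wx_rat hp hcop ha0 ha (w := w)
  have hn0 : n1 ≠ 0 := fun h => hn1 (h ▸ dvd_zero p)
  have hq0 : p ^ k ≠ 0 := (pow_pos hp.pos k).ne'
  have hwθ : w θ = 1 := by
    have h1 : w θ ^ (p ^ k * n1) = 1 := by rw [← map_pow, hθ, hwa]
    exact (pow_eq_one_iff_of_nonneg (w.nonneg _) (mul_ne_zero hq0 hn0)).1 h1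
  -- claim 1
  have hy0 : a ^ (p - 1) - 1 ≠ 0 := by
    intro h; rw [h, padicValRat.zero] at hwf; exact zero_ne_one hwf
  have hwy : w (algebraMap ℚ M (a ^ (p - 1) - 1)) = w (p : M) := by
    have hpq : (p : ℚ) ≠ 0 := by exact_mod_cast hp.ne_zero
    have h1 : padicValRat p ((a ^ (p - 1) - 1) / (p : ℚ)) = 0 := by
      rw [padicValRat.div hy0 hpq, hwf, padicValRat.self hp.one_lt, sub_self]
    have h2 := wx_rat hp hcop (div_ne_zero hy0 hpq) h1 (w := w)
    rw [map_div₀, map_div₀, map_natCast, div_eq_one_iff_eq hwp0.ne'] at h2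
    exact h2
  have hs : ∃ s : ℕ, ¬ p ∣ s ∧ (p - 1) * s = p ^ e - 1 := by
    refine ⟨∑ i ∈ Finset.range e, p ^ i, ?_, ?_⟩
    · obtain ⟨e', rfl⟩ : ∃ e', e = e' + 1 := ⟨e - 1, by omega⟩
      rw [Finset.sum_range_succ', pow_zero]
      intro h
      have h1 : p ∣ ∑ i ∈ Finset.range e', p ^ (i + 1) :=
        Finset.dvd_sum fun i _ => dvd_pow_self p (Nat.succ_ne_zero i)
      exact hp.one_lt.ne' (Nat.dvd_one.1 ((Nat.dvd_add_right h1).1 h))
    · have h1 := geom_sum_mul_add (p - 1) e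
      have h2 : p - 1 + 1 = p := Nat.sub_add_cancel hp.one_lt.le
      rw [h2] at h1
      rw [← h1, Nat.add_sub_cancel, mul_comm]
  obtain ⟨s, hsp, hse⟩ := hs
  have hc1 : w ((algebraMap ℚ M a) ^ (p ^ e - 1) - 1) = w (p : M) := by
    have h1 : (algebraMap ℚ M a) ^ (p - 1) - 1 = algebraMap ℚ M (a ^ (p - 1) - 1) := by
      rw [map_sub, map_pow, map_one]
    have h2 : w ((algebraMap ℚ M a) ^ (p - 1) - 1) = w (p : M) := by rw [h1, hwy]
    rw [← hse, pow_mul, wx_pow_sub_one hna (by rw [h2]; exact hwp) s (hcop s hsp), h2]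
  -- claim 2
  have hη1 : w (θ ^ (p ^ k)) = 1 := by rw [map_pow, hwθ, one_pow]
  have hpe : p ^ e - 1 + 1 = p ^ e := Nat.sub_add_cancel (Nat.one_le_pow _ _ hp.pos)
  have hfac : (θ ^ (p ^ k)) ^ (p ^ e) - θ ^ (p ^ k) =
      θ ^ (p ^ k) * ((θ ^ (p ^ k)) ^ (p ^ e - 1) - 1) := by
    rw [mul_sub, mul_one, ← pow_succ', hpe]
  have hc2 : w ((θ ^ (p ^ k)) ^ (p ^ e - 1) - 1) = w (p : M) := by
    have h1 : w ((θ ^ (p ^ k)) ^ (p ^ e - 1) - 1) < 1 := by
      have h2 := hres (θ ^ (p ^ k)) hη1.le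
      rw [hfac, map_mul, hη1, one_mul] at h2
      exact h2
    have h3 := wx_pow_sub_one hna h1 n1 (hcop n1 hn1)
    rw [← h3, ← pow_mul, mul_comm (p ^ e - 1) n1, pow_mul, ← pow_mul θ, hθ, hc1]
  have hc3 : w (θ ^ (p ^ k) - (θ ^ (p ^ k)) ^ (p ^ e)) = w (p : M) := by
    rw [← w.map_neg, neg_sub, hfac, map_mul, hη1, one_mul, hc2]
  -- the element
  obtain ⟨A, hA⟩ : ∃ A, A = θ ^ (p ^ k * p ^ (e - k)) := ⟨_, rfl⟩
  rw [← hA]
  have hpke : p ^ k * p ^ (e - k) = p ^ e := by rw [← pow_add, Nat.add_sub_cancel' hke]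
  have hAq : A ^ (p ^ k) = (θ ^ (p ^ k)) ^ (p ^ e) := by
    rw [hA, hpke, ← pow_mul, ← pow_mul, mul_comm]
  have hwA : w A = 1 := by rw [hA, map_pow, hwθ, one_pow]
  have hbin := (Commute.all (θ - A) A).add_pow_prime_pow_eq' hp k
  rw [sub_add_cancel, hAq] at hbin
  obtain ⟨S, hS⟩ : ∃ S, S = ∑ j ∈ Finset.Ioo 0 (p ^ k),
      (θ - A) ^ j * A ^ (p ^ k - j) * (((p ^ k).choose j / p : ℕ) : M) := ⟨_, rfl⟩
  rw [← hS] at hbin
  have hπ1 : w (θ - A) ≤ 1 := by
    have := hna θ (-A)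
    rw [w.map_neg, hwθ, hwA, max_self, ← sub_eq_add_neg] at this
    exact this
  have hwS : w S ≤ w (θ - A) := by
    rw [hS]
    refine wx_sum_le hna _ _ (w.nonneg _) fun j hj => ?_
    obtain ⟨hj0, -⟩ := Finset.mem_Ioo.1 hj
    rw [map_mul, map_mul, map_pow, map_pow, hwA, one_pow, mul_one]
    calc w (θ - A) ^ j * w (((p ^ k).choose j / p : ℕ) : M) ≤ w (θ - A) ^ j * 1 :=
          mul_le_mul_of_nonneg_left (wx_nat hna _) (pow_nonneg (w.nonneg _) _)
      _ = w (θ - A) ^ j := mul_one _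
      _ ≤ w (θ - A) := pow_le_of_le_one (w.nonneg _) hπ1 hj0.ne'
  have hdiff : (θ - A) ^ (p ^ k) - (θ ^ (p ^ k) - (θ ^ (p ^ k)) ^ (p ^ e)) = -((p : M) * S) := by
    linear_combination -hbin
  have hpS : w (-((p : M) * S)) ≤ w (p : M) * w (θ - A) := by
    rw [w.map_neg, map_mul]
    exact mul_le_mul_of_nonneg_left hwS hwp0.le
  have hπlt : w (θ - A) < 1 := by
    by_contra hc
    push Not at hc
    have h1 : w ((θ - A) ^ (p ^ k)) ≤ w (p : M) := by
      have h2 := hna ((θ - A) ^ (p ^ k) - (θ ^ (p ^ k) - (θ ^ (p ^ k)) ^ (p ^ e)))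
        (θ ^ (p ^ k) - (θ ^ (p ^ k)) ^ (p ^ e))
      rw [sub_add_cancel, hc3, hdiff] at h2
      refine h2.trans (max_le (hpS.trans ?_) le_rfl)
      calc w (p : M) * w (θ - A) ≤ w (p : M) * 1 := mul_le_mul_of_nonneg_left hπ1 hwp0.le
        _ = w (p : M) := mul_one _
    rw [map_pow] at h1
    have h3 : 1 ≤ w (θ - A) ^ (p ^ k) := one_le_pow₀ hc
    linarith
  have hfin := wx_eq_of_lt hna (x := (θ - A) ^ (p ^ k))
    (y := θ ^ (p ^ k) - (θ ^ (p ^ k)) ^ (p ^ e)) (by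
      rw [hdiff, hc3]
      refine hpS.trans_lt ?_
      calc w (p : M) * w (θ - A) < w (p : M) * 1 := mul_lt_mul_of_pos_left hπlt hwp0
        _ = w (p : M) := mul_one _)
  rw [hc3, map_pow] at hfin
  exact hfin

end

theorem pf_MXE (hVB : Pool.Agent.H24.RD.T_VB) (hRES : Pool.Agent.H29.LG.T_RES) : T_MXE := by
  intro M _ _ r a N θ hGL hθ p i k hp hk hdvd hndvd
  obtain ⟨n1, hn1⟩ := hdvd
  have hn1p : ¬ p ∣ n1 := by
    rintro ⟨l, hl⟩
    apply hndvd
    rw [hn1, hl, pow_succ]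
    exact ⟨l, by ring⟩
  have hpN : p ∣ N i := by
    rw [hn1]; exact Dvd.dvd.mul_right (dvd_pow_self p (by omega)) n1
  obtain ⟨E0, hE0⟩ : ∃ E0, E0 = (Module.finrank ℚ M).factorial := ⟨_, rfl⟩
  have hE0p : 1 ≤ E0 := by rw [hE0]; exact Nat.factorial_pos _
  have hkE : k ≤ k * E0 := Nat.le_mul_of_pos_right k hE0p
  refine ⟨k * E0 - k, fun w hw => ?_⟩
  obtain ⟨hna, hp0, -, hcop, -⟩ := hVB M p hp w hw
  have hres1 : ∀ x : M, w.1 x ≤ 1 → w.1 (x ^ (p ^ E0) - x) < 1 := by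
    intro x hx
    have h1 := hRES M M p 0 hp w hw 1 (by rw [pow_zero]; exact IsPrimitiveRoot.one) x
      (IntermediateField.algebraMap_mem _ x) hx
    rw [← hE0] at h1
    exact h1
  have hres : ∀ (j : ℕ) (x : M), w.1 x ≤ 1 → w.1 (x ^ (p ^ (j * E0)) - x) < 1 := by
    intro j
    induction j with
    | zero =>
      intro x _
      rw [Nat.zero_mul, pow_zero, pow_one, sub_self, map_zero]
      exact zero_lt_one
    | succ j ih =>
      intro x hx
      have hx' : w.1 (x ^ (p ^ (j * E0))) ≤ 1 := by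
        rw [map_pow]; exact pow_le_one₀ (w.1.nonneg _) hx
      have h1 := hres1 _ hx'
      have h2 := ih x hx
      have h3 : x ^ (p ^ ((j + 1) * E0)) = (x ^ (p ^ (j * E0))) ^ (p ^ E0) := by
        rw [← pow_mul, ← pow_add, Nat.succ_mul]
      have h4 : x ^ (p ^ ((j + 1) * E0)) - x =
          ((x ^ (p ^ (j * E0))) ^ (p ^ E0) - x ^ (p ^ (j * E0))) + (x ^ (p ^ (j * E0)) - x) := by
        rw [h3]; ring
      rw [h4]
      exact (hna _ _).trans_lt (max_lt h1 h2)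
  exact mxe_core hna hp hp0 hw hcop (θ i) (a i) n1 k (k * E0) hk hkE hn1p
    (by rw [← hn1]; exact hθ i) (hGL.nz i) (hGL.unit i p hp hpN i) (hGL.wief i p hp hpN)
    (hres k)

end Pool.Agent.H59.GG
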